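import Pool.Agent.N906.FH.Stm
import Pool.Agent.N92.SZ_UPB

/-!
# Project FH: large primes
-/

set_option autoImplicit false

namespace Pool.Agent.N2.FH

open Finset Filter Topology Pool.Agent.N906.SZ Pool.Agent.N906.FH Pool.Agent.N92.SZ

/-- PERA2 summed over a set of moduli -/
theorem pera_sum2 (C K θ : ℝ) (hC : 0 < C)
    (hp : ∀ (X Y : ℝ) (n : ℕ), 1 ≤ X → 1 ≤ Y → 1 ≤ n → n.Coprime 6 →
      ∀ F : Finset (ℤ × ℤ), (∀ x ∈ F, x.1 ≠ 0 ∧ Mn x.1 x.2 ∧ Rg X Y x.1 x.2 ∧ Cn n x.1 x.2) →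
        (F.card : ℝ) ≤ C * 6 ^ n.primeFactors.card * (Y / (X * (n * rd n : ℕ)) + X ^ 2))
    (ht : ∀ (V : ℝ) (N : Finset ℕ), 0 < V → (∀ n ∈ N, V < n) →
      ∑ n ∈ N, (6 : ℝ) ^ n.primeFactors.card / (n * rd n : ℕ) ≤ K * V ^ (θ - 1))
    (X Y V A : ℝ) (hX : 1 ≤ X) (hY : 1 ≤ Y) (hV : 0 < V) (N : Finset ℕ)
    (hN : ∀ n ∈ N, V < n ∧ n.Coprime 6 ∧ (6 : ℝ) ^ n.primeFactors.card ≤ A)
    (F : Finset (ℤ × ℤ)) (hF : ∀ x ∈ F, x.1 ≠ 0 ∧ Mn x.1 x.2 ∧ Rg X Y x.1 x.2 ∧
        ∃ n ∈ N, Cn n x.1 x.2) :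
    (F.card : ℝ) ≤ C * (Y / X * (K * V ^ (θ - 1)) + X ^ 2 * (A * N.card)) := by
  classical
  have hn1 : ∀ n ∈ N, 1 ≤ n := by
    intro n hn
    have h1 : (0 : ℝ) < n := hV.trans (hN n hn).1
    exact_mod_cast h1
  have hcov : F ⊆ N.biUnion (fun n => F.filter (fun x => Cn n x.1 x.2)) := by
    intro x hx
    obtain ⟨n, hn, hCn⟩ := (hF x hx).2.2.2
    rw [Finset.mem_biUnion]
    exact ⟨n, hn, Finset.mem_filter.mpr ⟨hx, hCn⟩⟩
  calc (F.card : ℝ) ≤ ((∑ n ∈ N, (F.filter (fun x => Cn n x.1 x.2)).card : ℕ) : ℝ) := by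
        exact_mod_cast (Finset.card_le_card hcov).trans Finset.card_biUnion_le
    _ = ∑ n ∈ N, ((F.filter (fun x => Cn n x.1 x.2)).card : ℝ) := by push_cast; rfl
    _ ≤ ∑ n ∈ N, (C * (Y / X) * ((6 : ℝ) ^ n.primeFactors.card / (n * rd n : ℕ)) +
          C * X ^ 2 * A) := by
        apply Finset.sum_le_sum
        intro n hn
        have h := hp X Y n hX hY (hn1 n hn) (hN n hn).2.1 (F.filter (fun x => Cn n x.1 x.2)) (by
          intro x hx
          rw [Finset.mem_filter] at hx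
          obtain ⟨h1, h2, h3, -⟩ := hF x hx.1
          exact ⟨h1, h2, h3, hx.2⟩)
        refine h.trans ?_
        have h2 : C * 6 ^ n.primeFactors.card * X ^ 2 ≤ C * X ^ 2 * A := by
          have := mul_le_mul_of_nonneg_left (hN n hn).2.2 (by positivity : 0 ≤ C * X ^ 2)
          linarith
        calc C * 6 ^ n.primeFactors.card * (Y / (X * (n * rd n : ℕ)) + X ^ 2)
            = C * (Y / X) * ((6 : ℝ) ^ n.primeFactors.card / (n * rd n : ℕ)) +
              C * 6 ^ n.primeFactors.card * X ^ 2 := by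
              rw [← div_div]; ring
          _ ≤ _ := by linarith
    _ = C * (Y / X) * ∑ n ∈ N, ((6 : ℝ) ^ n.primeFactors.card / (n * rd n : ℕ)) +
          N.card * (C * X ^ 2 * A) := by
        rw [Finset.sum_add_distrib, Finset.sum_const, nsmul_eq_mul, Finset.mul_sum]
    _ ≤ C * (Y / X) * (K * V ^ (θ - 1)) + N.card * (C * X ^ 2 * A) := by
        have := mul_le_mul_of_nonneg_left (ht V N hV (fun n hn => (hN n hn).1))
          (by positivity : 0 ≤ C * (Y / X))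
        linarith
    _ = _ := by ring

/-- the first term -/
theorem main_term2 (lam η θ K X Y T : ℝ) (hl0 : 0 < lam) (hl1 : lam < 1 / 6) (hη : 0 < η)
    (hθ0 : 0 < θ) (hθ1 : θ ≤ 1 / 2) (hθ2 : θ ≤ η / 4) (hK : 1 ≤ K) (hX : 1 ≤ X) (hY : 1 ≤ Y)
    (hT : 1 ≤ T) (hT2 : T ≤ K * X ^ (6 * lam)) (hYu : Y ≤ K * T * X ^ (6 - 6 * lam)) :
    Y / X * (T * X ^ η) ^ (θ - 1) ≤ K ^ 2 * X ^ (5 - 6 * lam - η / 4) := by
  have hX0 : 0 < X := by linarith
  have hY0 : 0 < Y := by linarith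
  have hT0 : 0 < T := by linarith
  have hK0 : 0 < K := by linarith
  have e1 : (T * X ^ η) ^ (θ - 1) = T ^ (θ - 1) * X ^ (η * (θ - 1)) := by
    rw [Real.mul_rpow (by positivity) (by positivity), ← Real.rpow_mul (by positivity)]
  have h1 : Y / X ≤ K * T * X ^ (5 - 6 * lam) := by
    rw [div_le_iff₀ hX0]
    refine hYu.trans (le_of_eq ?_)
    rw [mul_assoc (K * T), ← Real.rpow_add_one hX0.ne']
    congr 2
    ring
  have e2 : T * T ^ (θ - 1) = T ^ θ := by
    rw [mul_comm, ← Real.rpow_add_one hT0.ne']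
    congr 1
    ring
  have h2 : T ^ θ ≤ K * X ^ (6 * lam * θ) := by
    calc T ^ θ ≤ (K * X ^ (6 * lam)) ^ θ := Real.rpow_le_rpow hT0.le hT2 hθ0.le
      _ = K ^ θ * X ^ (6 * lam * θ) := by
          rw [Real.mul_rpow hK0.le (by positivity), ← Real.rpow_mul hX0.le]
      _ ≤ K * X ^ (6 * lam * θ) := by
          apply mul_le_mul_of_nonneg_right _ (by positivity)
          calc K ^ θ ≤ K ^ (1 : ℝ) := Real.rpow_le_rpow_of_exponent_le hK (by linarith)
            _ = K := Real.rpow_one K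
  calc Y / X * (T * X ^ η) ^ (θ - 1)
      ≤ K * T * X ^ (5 - 6 * lam) * (T ^ (θ - 1) * X ^ (η * (θ - 1))) := by
        rw [e1]
        exact mul_le_mul_of_nonneg_right h1 (by positivity)
    _ = K * (T * T ^ (θ - 1)) * (X ^ (5 - 6 * lam) * X ^ (η * (θ - 1))) := by ring
    _ ≤ K * (K * X ^ (6 * lam * θ)) * (X ^ (5 - 6 * lam) * X ^ (η * (θ - 1))) := by
        rw [e2]
        apply mul_le_mul_of_nonneg_right _ (by positivity)
        exact mul_le_mul_of_nonneg_left h2 hK0.le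
    _ = K ^ 2 * X ^ (6 * lam * θ + (5 - 6 * lam) + η * (θ - 1)) := by
        rw [Real.rpow_add hX0, Real.rpow_add hX0]
        ring
    _ ≤ K ^ 2 * X ^ (5 - 6 * lam - η / 4) := by
        apply mul_le_mul_of_nonneg_left _ (by positivity)
        apply Real.rpow_le_rpow_of_exponent_le hX
        have h3 : 6 * lam * θ ≤ θ := by nlinarith
        have h4 : η * θ ≤ η / 2 := by nlinarith
        nlinarith

/-- UPB2 from PERA2, LP and GENU -/
theorem upb2 (h1 : S_PERA2) (h2 : S_LP) (h3 : S_GENU) : S_UPB2 := by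
  classical
  intro lam Kc η hl0 hl1 hKc hη
  have hKc0 : 0 < Kc := by linarith
  obtain ⟨C, hC, hp⟩ := h1
  set κ : ℝ := (3 - 18 * lam) / 4 with hκ
  have hκ0 : 0 < κ := by rw [hκ]; linarith
  obtain ⟨CL, hCL, hlp⟩ := h2 κ hκ0
  set δ : ℝ := min (min (η / 8) (1 / 4)) (κ / 2) with hδd
  have hδ0 : 0 < δ := lt_min (lt_min (by positivity) (by norm_num)) (by positivity)
  have hδ1 : δ ≤ 1 / 4 := (min_le_left _ _).trans (min_le_right _ _)
  have hδ2 : δ ≤ η / 8 := (min_le_left _ _).trans (min_le_left _ _)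
  have hδ3 : δ ≤ κ / 2 := min_le_right _ _
  obtain ⟨K, θ, hK, hθ0, hθ1, htail⟩ := tail_sum h3 δ hδ0 hδ1
  obtain ⟨Co, hCo, hom⟩ := omega_bound δ hδ0
  set c₀ : ℝ := min (η / 4) κ with hc₀
  have hc0 : 0 < c₀ := lt_min (by positivity) hκ0
  have hc1 : c₀ ≤ η / 4 := min_le_left _ _
  have hc2 : c₀ ≤ κ := min_le_right _ _
  set Kt : ℝ := 2 * (C * (K * Kc ^ 2)) + C * (Co * Kc ^ 4) + C * 6 + CL with hKt
  have hev : ∀ᶠ X : ℝ in atTop, Kt ≤ X ^ c₀ := (tendsto_rpow_atTop hc0).eventually_ge_atTop Kt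
  obtain ⟨Xa, hXa⟩ := eventually_atTop.mp hev
  refine ⟨max Xa 4, by
    have := le_max_right Xa 4
    linarith, ?_⟩
  intro X Y T F hX hY hT hTX hYu hF
  have hXa' := hXa X ((le_max_left _ _).trans hX)
  have hX4 : (4 : ℝ) ≤ X := (le_max_right _ _).trans hX
  have hX0 : 0 < X := by linarith
  have hX1 : 1 ≤ X := by linarith
  have hT0 : 0 < T := by linarith
  set V : ℝ := T * X ^ η with hV
  have hV0 : 0 < V := by positivity
  have hV1 : 1 ≤ V := by
    have := Real.one_le_rpow hX1 hη.le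
    rw [hV]; nlinarith
  set P₀ : ℝ := X ^ (3 - 6 * lam - κ) with hP₀
  have hP0 : 0 < P₀ := by positivity
  have hP1 : 1 ≤ P₀ := Real.one_le_rpow hX1 (by rw [hκ]; linarith)
  -- the sets of moduli
  set N1 : Finset ℕ := (Icc 1 ⌊T ^ 2⌋₊).filter (fun n => V < n ∧ n.Coprime 6) with hN1
  set N2 : Finset ℕ := (Icc 1 ⌊P₀⌋₊).filter (fun n => V < n ∧ n.Coprime 6 ∧ n.Prime) with hN2
  set F1 := F.filter (fun x => ∃ n ∈ N1, Cn n x.1 x.2) with hF1
  set F2 := F.filter (fun x => ∃ n ∈ N2, Cn n x.1 x.2) with hF2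
  set F3 := F.filter (fun x => ∃ p : ℕ, P₀ ≤ p ∧ (p : ℤ) ^ 2 ∣ Dd x.1 x.2) with hF3
  have hcov : F ⊆ F1 ∪ F2 ∪ F3 := by
    intro x hx
    rw [Finset.mem_union, Finset.mem_union, hF1, hF2, hF3, Finset.mem_filter, Finset.mem_filter,
      Finset.mem_filter]
    obtain ⟨-, -, -, n, hn1, hn2, hn3, hn4⟩ := hF x hx
    have hn2' : 2 ≤ n := by
      have h5 : (1 : ℝ) < n := lt_of_le_of_lt hV1 hn1
      have h6 : 1 < n := by exact_mod_cast h5
      exact h6
    rcases prime_or n T hT0 hn2' hn3 with hpr | hle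
    · by_cases hnP : (n : ℝ) ≤ P₀
      · left; right
        refine ⟨hx, n, ?_, hn4⟩
        rw [hN2, Finset.mem_filter, Finset.mem_Icc]
        exact ⟨⟨by omega, Nat.le_floor hnP⟩, hn1, hn2, hpr⟩
      · right
        push Not at hnP
        refine ⟨hx, n, hnP.le, ?_⟩
        have h7 := hn4 n (Nat.mem_primeFactors.mpr ⟨hpr, dvd_rfl, by omega⟩)
        refine dvd_trans (pow_dvd_pow _ ?_) h7
        rw [Nat.Prime.factorization_self hpr]
        have h5 : ¬ n < 5 := by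
          intro h5
          have : n = 2 ∨ n = 3 ∨ n = 4 := by omega
          rcases this with h | h | h <;> subst h <;> revert hn2 <;> decide
        unfold fe
        rw [if_neg h5]
        split_ifs <;> norm_num
    · left; left
      refine ⟨hx, n, ?_, hn4⟩
      rw [hN1, Finset.mem_filter, Finset.mem_Icc]
      exact ⟨⟨by omega, Nat.le_floor hle⟩, hn1, hn2⟩
  have hmain := main_term2 lam η θ Kc X Y T hl0 hl1 hη hθ0 (by linarith) (by linarith) hKc hX1 hY
    hT hTX hYu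
  rw [← hV] at hmain
  have hTsq : T ^ 2 ≤ Kc ^ 2 * X ^ (12 * lam) := by
    calc T ^ 2 ≤ (Kc * X ^ (6 * lam)) ^ 2 := pow_le_pow_left₀ hT0.le hTX 2
      _ = Kc ^ 2 * X ^ (12 * lam) := by
          rw [mul_pow, ← Real.rpow_natCast (X ^ (6 * lam)) 2, ← Real.rpow_mul hX0.le]
          congr 2
          push_cast; ring
  have hXc1 : X ^ (5 - 6 * lam - η / 4) ≤ X ^ (5 - 6 * lam - c₀) :=
    Real.rpow_le_rpow_of_exponent_le hX1 (by linarith)
  have hXc2 : X ^ (5 - 6 * lam - κ) ≤ X ^ (5 - 6 * lam - c₀) :=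
    Real.rpow_le_rpow_of_exponent_le hX1 (by linarith)
  set Z : ℝ := X ^ (5 - 6 * lam - c₀) with hZ
  have hZ0 : 0 < Z := by positivity
  have hm' : Y / X * (K * V ^ (θ - 1)) ≤ K * Kc ^ 2 * Z := by
    calc Y / X * (K * V ^ (θ - 1)) = K * (Y / X * V ^ (θ - 1)) := by ring
      _ ≤ K * (Kc ^ 2 * Z) := by
          apply mul_le_mul_of_nonneg_left _ hK.le
          exact hmain.trans (mul_le_mul_of_nonneg_left hXc1 (by positivity))
      _ = _ := by ring
  -- the first part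
  have hb1 : (F1.card : ℝ) ≤ C * (K * Kc ^ 2 * Z + Co * Kc ^ 4 * Z) := by
    have h := pera_sum2 C K θ hC hp htail X Y V (Co * (T ^ 2) ^ δ) hX1 hY hV0 N1 (by
      intro n hn
      rw [hN1, Finset.mem_filter, Finset.mem_Icc] at hn
      refine ⟨hn.2.1, hn.2.2, (hom n hn.1.1).trans ?_⟩
      apply mul_le_mul_of_nonneg_left _ hCo.le
      apply Real.rpow_le_rpow (by positivity) _ hδ0.le
      exact (Nat.le_floor_iff (by positivity)).mp hn.1.2) F1 (by
      intro x hx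
      rw [hF1, Finset.mem_filter] at hx
      obtain ⟨h5, h6, h7, -⟩ := hF x hx.1
      exact ⟨h5, h6, h7, hx.2⟩)
    refine h.trans (mul_le_mul_of_nonneg_left ?_ hC.le)
    apply add_le_add hm'
    have hNc : (N1.card : ℝ) ≤ T ^ 2 := by
      calc (N1.card : ℝ) ≤ ((Icc 1 ⌊T ^ 2⌋₊).card : ℝ) := by
            exact_mod_cast Finset.card_filter_le _ _
        _ = (⌊T ^ 2⌋₊ : ℝ) := by rw [Nat.card_Icc]; norm_num
        _ ≤ T ^ 2 := Nat.floor_le (by positivity)
    have hTd : (T ^ 2) ^ δ ≤ Kc ^ 2 * X ^ (2 * δ) := by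
      have h16 : T ^ 2 ≤ Kc ^ 2 * X ^ 2 := by
        refine hTsq.trans (mul_le_mul_of_nonneg_left ?_ (by positivity))
        rw [← Real.rpow_natCast X 2]
        apply Real.rpow_le_rpow_of_exponent_le hX1
        push_cast
        linarith
      have hKc2 : 1 ≤ Kc ^ 2 := one_le_pow₀ hKc
      calc (T ^ 2) ^ δ ≤ (Kc ^ 2 * X ^ 2) ^ δ := Real.rpow_le_rpow (by positivity) h16 hδ0.le
        _ = (Kc ^ 2) ^ δ * X ^ (2 * δ) := by
            rw [Real.mul_rpow (by positivity) (by positivity), ← Real.rpow_natCast X 2,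
              ← Real.rpow_mul hX0.le]
            norm_num
        _ ≤ Kc ^ 2 * X ^ (2 * δ) := by
            apply mul_le_mul_of_nonneg_right _ (by positivity)
            calc (Kc ^ 2) ^ δ ≤ (Kc ^ 2) ^ (1 : ℝ) :=
                  Real.rpow_le_rpow_of_exponent_le hKc2 (by linarith)
              _ = Kc ^ 2 := Real.rpow_one _
    calc X ^ 2 * (Co * (T ^ 2) ^ δ * N1.card)
        ≤ X ^ 2 * (Co * (Kc ^ 2 * X ^ (2 * δ)) * (Kc ^ 2 * X ^ (12 * lam))) := by
          apply mul_le_mul_of_nonneg_left _ (by positivity)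
          apply mul_le_mul _ (hNc.trans hTsq) (by positivity) (by positivity)
          exact mul_le_mul_of_nonneg_left hTd hCo.le
      _ = Co * Kc ^ 4 * X ^ (2 + 2 * δ + 12 * lam) := by
          rw [Real.rpow_add hX0, Real.rpow_add hX0, Real.rpow_ofNat]
          ring
      _ ≤ Co * Kc ^ 4 * Z := by
          apply mul_le_mul_of_nonneg_left _ (by positivity)
          apply Real.rpow_le_rpow_of_exponent_le hX1
          linarith
  -- the second part
  have hb2 : (F2.card : ℝ) ≤ C * (K * Kc ^ 2 * Z + 6 * Z) := by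
    have h := pera_sum2 C K θ hC hp htail X Y V 6 hX1 hY hV0 N2 (by
      intro n hn
      rw [hN2, Finset.mem_filter, Finset.mem_Icc] at hn
      refine ⟨hn.2.1, hn.2.2.1, ?_⟩
      rw [Nat.Prime.primeFactors hn.2.2.2, Finset.card_singleton, pow_one]) F2 (by
      intro x hx
      rw [hF2, Finset.mem_filter] at hx
      obtain ⟨h5, h6, h7, -⟩ := hF x hx.1
      exact ⟨h5, h6, h7, hx.2⟩)
    refine h.trans (mul_le_mul_of_nonneg_left ?_ hC.le)
    apply add_le_add hm'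
    have hNc : (N2.card : ℝ) ≤ P₀ := by
      calc (N2.card : ℝ) ≤ ((Icc 1 ⌊P₀⌋₊).card : ℝ) := by
            exact_mod_cast Finset.card_filter_le _ _
        _ = (⌊P₀⌋₊ : ℝ) := by rw [Nat.card_Icc]; norm_num
        _ ≤ P₀ := Nat.floor_le (by positivity)
    calc X ^ 2 * (6 * N2.card) ≤ X ^ 2 * (6 * P₀) := by
          apply mul_le_mul_of_nonneg_left _ (by positivity)
          linarith
      _ = 6 * X ^ (5 - 6 * lam - κ) := by
          have e : (5 - 6 * lam - κ : ℝ) = 2 + (3 - 6 * lam - κ) := by ring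
          rw [e, Real.rpow_add hX0, Real.rpow_ofNat, hP₀]
          ring
      _ ≤ 6 * Z := mul_le_mul_of_nonneg_left hXc2 (by norm_num)
  -- the third part
  have hb3 : (F3.card : ℝ) ≤ CL * Z := by
    have h := hlp X P₀ hX1 hP1 F3 (by
      intro x hx
      rw [hF3, Finset.mem_filter] at hx
      obtain ⟨h5, h6, h7, -⟩ := hF x hx.1
      exact ⟨h5, h7.1, h7.2.1, h6.1, hx.2⟩)
    refine h.trans ?_
    have e : X ^ (8 + κ) / P₀ ^ 2 = X ^ (5 - 6 * lam - κ) := by
      rw [hP₀, ← Real.rpow_natCast (X ^ (3 - 6 * lam - κ)) 2, ← Real.rpow_mul hX0.le,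
        ← Real.rpow_sub hX0]
      congr 1
      push_cast
      rw [hκ]; ring
    rw [mul_div_assoc, e]
    exact mul_le_mul_of_nonneg_left hXc2 hCL.le
  have hcard : (F.card : ℝ) ≤ F1.card + F2.card + F3.card := by
    have h5 : F.card ≤ F1.card + F2.card + F3.card := by
      refine (Finset.card_le_card hcov).trans ?_
      refine (Finset.card_union_le _ _).trans ?_
      exact Nat.add_le_add_right (Finset.card_union_le _ _) _
    exact_mod_cast h5
  calc (F.card : ℝ) ≤ Kt * Z := by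
        rw [hKt]
        linarith
    _ ≤ X ^ c₀ * Z := mul_le_mul_of_nonneg_right hXa' hZ0.le
    _ = X ^ (5 - 6 * lam) := by
        rw [hZ, ← Real.rpow_add hX0]
        congr 1
        ring

end Pool.Agent.N2.FH
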