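import Pool.Agent.N378.KH.Stm

/-!
# Project KH, part RANK: disjointness of the ranks
-/

set_option autoImplicit false

open MeasureTheory Finset
open scoped ENNReal

namespace Pool.Agent.N2.KH

open Pool.Agent.N378.KH

variable {n m : ℕ}

lemma below_lt (j : Fin (m + 1)) (s : ℝ) (a : Fin m → ℝ) (x : Fin n × Fin (m + 1) → ℝ)
    (Q : Finset (Fin n)) {p p' : Fin n} (hp : p ∉ Q) (h : s * ht j a x p < s * ht j a x p') :
    (below j s a x Q p).card < (below j s a x Q p').card := by
  refine Finset.card_lt_card ?_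
  rw [Finset.ssubset_iff_of_subset]
  · refine ⟨p, ?_, ?_⟩
    · unfold below
      rw [Finset.mem_filter]
      exact ⟨Finset.mem_univ _, hp, h⟩
    · unfold below
      rw [Finset.mem_filter]
      rintro ⟨_, _, h1⟩
      exact lt_irrefl _ h1
  · intro i hi
    unfold below at hi ⊢
    rw [Finset.mem_filter] at hi ⊢
    exact ⟨hi.1, hi.2.1, hi.2.2.trans h⟩

lemma slopes_inter (j : Fin (m + 1)) {s : ℝ} (hs : s ≠ 0) (k : ℕ) (Q : Finset (Fin n))
    {p p' : Fin n} (hp : p ∉ Q) (hp' : p' ∉ Q) (x : Fin n × Fin (m + 1) → ℝ) :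
    slopes j s k Q p x ∩ slopes j s k Q p' x ⊆ {a | ht j a x p = ht j a x p'} := by
  rintro a ⟨h1, h2⟩
  have h3 : (below j s a x Q p).card = (below j s a x Q p').card := h1.2.trans h2.2.symm
  rcases lt_trichotomy (s * ht j a x p) (s * ht j a x p') with h | h | h
  · exact absurd h3 (below_lt j s a x Q hp h).ne
  · exact mul_left_cancel₀ hs h
  · exact absurd h3.symm (below_lt j s a x Q hp' h).ne

/-- a hyperplane is a null set -/
lemma hyp_null (b : Fin m → ℝ) (c : ℝ) (h : b ≠ 0 ∨ c ≠ 0) :
    volume {a : Fin m → ℝ | ∑ l, a l * b l = c} = 0 := by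
  classical
  by_cases hb : b = 0
  · have hc : c ≠ 0 := by
      rcases h with h | h
      · exact absurd hb h
      · exact h
    have he : {a : Fin m → ℝ | ∑ l, a l * b l = c} = ∅ := by
      ext a
      simp only [Set.mem_setOf_eq, Set.mem_empty_iff_false, iff_false]
      intro h1
      rw [hb] at h1
      simp at h1
      exact hc h1.symm
    rw [he, measure_empty]
  · obtain ⟨l0, hl0⟩ := Function.ne_iff.1 hb
    let φ : (Fin m → ℝ) →ₗ[ℝ] ℝ := ∑ l, (b l) • (LinearMap.proj l)
    have hφ : ∀ a, φ a = ∑ l, a l * b l := by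
      intro a
      simp only [φ, LinearMap.sum_apply, LinearMap.smul_apply, LinearMap.proj_apply, smul_eq_mul]
      exact Finset.sum_congr rfl fun l _ => mul_comm _ _
    have hk : LinearMap.ker φ ≠ ⊤ := by
      intro h1
      have h2 : (Pi.single l0 1 : Fin m → ℝ) ∈ LinearMap.ker φ := by
        rw [h1]
        exact Submodule.mem_top
      rw [LinearMap.mem_ker, hφ] at h2
      have h3 : ∑ l, (Pi.single l0 1 : Fin m → ℝ) l * b l = b l0 := by
        rw [Finset.sum_eq_single l0]
        · simp
        · intro l _ hl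
          simp [hl]
        · intro h4
          exact absurd (Finset.mem_univ _) h4
      rw [h3] at h2
      exact hl0 h2
    by_cases hne : ∃ a0 : Fin m → ℝ, ∑ l, a0 l * b l = c
    · obtain ⟨a0, ha0⟩ := hne
      have he : {a : Fin m → ℝ | ∑ l, a l * b l = c} =
          (fun a => a + -a0) ⁻¹' (LinearMap.ker φ : Set (Fin m → ℝ)) := by
        ext a
        simp only [Set.mem_setOf_eq, Set.mem_preimage, SetLike.mem_coe, LinearMap.mem_ker]
        rw [map_add, map_neg, hφ, hφ, ha0]
        constructor
        · intro h1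
          rw [h1]
          ring
        · intro h1
          linarith
      rw [he, measure_preimage_add_right]
      exact Measure.addHaar_submodule _ _ hk
    · have he : {a : Fin m → ℝ | ∑ l, a l * b l = c} = ∅ := by
        ext a
        simp only [Set.mem_setOf_eq, Set.mem_empty_iff_false, iff_false]
        intro h1
        exact hne ⟨a, h1⟩
      rw [he, measure_empty]

lemma eq_null (j : Fin (m + 1)) (x : Fin n × Fin (m + 1) → ℝ) {p p' : Fin n}
    (h : ∃ e, x (p, e) ≠ x (p', e)) : volume {a : Fin m → ℝ | ht j a x p = ht j a x p'} = 0 := by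
  have h1 : {a : Fin m → ℝ | ht j a x p = ht j a x p'} =
      {a : Fin m → ℝ | ∑ l, a l * (x (p, j.succAbove l) - x (p', j.succAbove l)) =
        x (p, j) - x (p', j)} := by
    ext a
    simp only [Set.mem_setOf_eq, ht, mul_sub, Finset.sum_sub_distrib]
    constructor
    · intro h2
      linarith
    · intro h2
      linarith
  rw [h1]
  refine hyp_null _ _ ?_
  obtain ⟨e, he⟩ := h
  rcases Fin.eq_self_or_eq_succAbove j e with h2 | ⟨l, h2⟩
  · right
    rw [h2] at he
    exact sub_ne_zero.2 he
  · left
    rw [h2] at he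
    intro h3
    have h4 := congrFun h3 l
    exact sub_ne_zero.2 he h4

lemma ht_meas (j : Fin (m + 1)) (x : Fin n × Fin (m + 1) → ℝ) (i : Fin n) :
    Measurable fun a : Fin m → ℝ => ht j a x i := by
  unfold ht
  refine measurable_const.sub ?_
  exact Finset.measurable_sum _ fun l _ => (measurable_pi_apply l).mul_const _

lemma slopes_meas (j : Fin (m + 1)) (s : ℝ) (k : ℕ) (Q : Finset (Fin n)) (p : Fin n)
    (x : Fin n × Fin (m + 1) → ℝ) : MeasurableSet (slopes j s k Q p x) := by
  classical
  have h1 : MeasurableSet {a : Fin m → ℝ | ∀ l, |a l| ≤ 1} := by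
    rw [Set.setOf_forall]
    refine MeasurableSet.iInter fun l => ?_
    exact measurableSet_le (measurable_pi_apply l).abs measurable_const
  have h2 : Measurable fun a : Fin m → ℝ => (below j s a x Q p).card := by
    have h3 : (fun a : Fin m → ℝ => (below j s a x Q p).card) =
        fun a => ∑ i, if (i ∉ Q ∧ s * ht j a x i < s * ht j a x p) then 1 else 0 := by
      funext a
      unfold below
      rw [Finset.card_filter]
    rw [h3]
    refine Finset.measurable_sum _ fun i _ => ?_
    refine Measurable.ite ?_ measurable_const measurable_const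
    by_cases hi : i ∈ Q
    · have : {a : Fin m → ℝ | i ∉ Q ∧ s * ht j a x i < s * ht j a x p} = ∅ := by
        ext a
        simp [hi]
      rw [this]
      exact MeasurableSet.empty
    · have : {a : Fin m → ℝ | i ∉ Q ∧ s * ht j a x i < s * ht j a x p} =
          {a : Fin m → ℝ | s * ht j a x i < s * ht j a x p} := by
        ext a
        simp [hi]
      rw [this]
      exact measurableSet_lt ((ht_meas j x i).const_mul s) ((ht_meas j x p).const_mul s)
  have h4 : slopes j s k Q p x = {a : Fin m → ℝ | ∀ l, |a l| ≤ 1} ∩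
      (fun a : Fin m → ℝ => (below j s a x Q p).card) ⁻¹' {k} := rfl
  rw [h4]
  exact h1.inter (h2 (measurableSet_singleton k))

theorem t_RANK : Pool.Agent.N378.KH.S_RANK := by
  classical
  intro n m k j s Q hs x hx
  have h1 : ∑ p ∈ Qᶜ, volume (slopes j s k Q p x) = volume (⋃ p ∈ Qᶜ, slopes j s k Q p x) := by
    refine (measure_biUnion_finset₀ ?_ ?_).symm
    · intro p hp p' hp' hne
      have hp1 : p ∉ Q := Finset.mem_compl.1 hp
      have hp2 : p' ∉ Q := Finset.mem_compl.1 hp'
      exact measure_mono_null (slopes_inter j hs k Q hp1 hp2 x) (eq_null j x (hx p p' hne))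
    · intro p _
      exact (slopes_meas j s k Q p x).nullMeasurableSet
  rw [h1]
  have h2 : (⋃ p ∈ Qᶜ, slopes j s k Q p x) ⊆
      Set.Icc (fun _ : Fin m => (-1 : ℝ)) (fun _ => 1) := by
    intro a ha
    simp only [Set.mem_iUnion] at ha
    obtain ⟨p, _, h3⟩ := ha
    exact ⟨fun l => (abs_le.1 (h3.1 l)).1, fun l => (abs_le.1 (h3.1 l)).2⟩
  refine (measure_mono h2).trans ?_
  rw [Real.volume_Icc_pi]
  refine le_of_eq ?_
  rw [Finset.prod_const, Finset.card_univ, Fintype.card_fin]
  congr 1
  norm_num

end Pool.Agent.N2.KH
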