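import Pool.Agent.N657.QR.Stm

/-!
# Project QR: the matrix inequality behind reflection positivity
-/

set_option autoImplicit false

namespace Pool.Agent.N2.QR

open Matrix
open scoped MatrixOrder ComplexOrder

variable {n : Type} [Fintype n] [DecidableEq n]

lemma trace_mul_nonneg {A B : Matrix n n ℝ} (hA : A.PosSemidef) (hB : B.PosSemidef) :
    0 ≤ (A * B).trace := by
  obtain ⟨U, hU⟩ := (CStarAlgebra.nonneg_iff_eq_star_mul_self (a := A)).1
    (Matrix.nonneg_iff_posSemidef.2 hA)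
  have h2 : (A * B).trace = (U * B * Uᴴ).trace := by
    rw [hU, Matrix.star_eq_conjTranspose, Matrix.mul_assoc, Matrix.trace_mul_comm]
  rw [h2]
  exact (hB.mul_mul_conjTranspose_same U).trace_nonneg

/-- the absolute value of a symmetric matrix -/
lemma exists_abs (S : Matrix n n ℝ) (hS : Sᵀ = S) : ∃ R : Matrix n n ℝ, Rᵀ = R ∧
    R * R = S * S ∧ (R + S).PosSemidef ∧ (R - S).PosSemidef ∧
    ∀ E : Matrix n n ℝ, E * (S * S) = S * S * E → E * R = R * E := by
  have hSa : IsSelfAdjoint S := by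
    rw [isSelfAdjoint_iff, Matrix.star_eq_conjTranspose, Matrix.conjTranspose_eq_transpose_of_trivial,
      hS]
  have hR : IsSelfAdjoint (CFC.abs S) := (CFC.abs_nonneg S).isSelfAdjoint
  refine ⟨CFC.abs S, ?_, ?_, ?_, ?_, ?_⟩
  · rw [isSelfAdjoint_iff, Matrix.star_eq_conjTranspose,
      Matrix.conjTranspose_eq_transpose_of_trivial] at hR
    exact hR
  · rw [CFC.abs_mul_abs, hSa.star_eq]
  · rw [← Matrix.nonneg_iff_posSemidef, CFC.abs_add_self S]
    exact smul_nonneg (by norm_num) (CFC.posPart_nonneg S)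
  · rw [← Matrix.nonneg_iff_posSemidef, CFC.abs_sub_self S]
    exact smul_nonneg (by norm_num) (CFC.negPart_nonneg S)
  · intro E hE
    have h1 : Commute (star S * S) E := by
      rw [hSa.star_eq]
      exact hE.symm
    have h2 : Commute (CFC.abs S) E := Commute.cfcₙ_nnreal h1 _
    exact h2.symm

/-- blocks of the absolute value -/
lemma abs_block {ℓ : Type} (S R : Matrix n n ℝ) (lab : n → ℓ)
    (hS : ∀ i j, (S * S) i j ≠ 0 → lab i = lab j)
    (hR : ∀ E : Matrix n n ℝ, E * (S * S) = S * S * E → E * R = R * E) (i j : n)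
    (h : R i j ≠ 0) : lab i = lab j := by
  classical
  by_contra hne
  apply h
  have h1 := hR (Matrix.diagonal fun k => if lab k = lab i then 1 else 0) (by
    ext a b
    rw [Matrix.diagonal_mul, Matrix.mul_diagonal]
    by_cases h0 : (S * S) a b = 0
    · rw [h0]; simp
    · rw [hS a b h0]; ring)
  have h2 := congrFun (congrFun h1 i) j
  rw [Matrix.diagonal_mul, Matrix.mul_diagonal] at h2
  simpa [Ne.symm hne] using h2

lemma trace_blocks {k l : Type} [Fintype k] [Fintype l] (A : Matrix k k ℝ) (B : Matrix k l ℝ)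
    (C : Matrix l k ℝ) (D : Matrix l l ℝ) : (fromBlocks A B C D).trace = A.trace + D.trace := by
  simp [Matrix.trace, Fintype.sum_sum_type]

lemma tr4 {k l o q : Type} [Fintype k] [Fintype l] [Fintype o] [Fintype q] (X : Matrix k l ℝ)
    (Y : Matrix l o ℝ) (Z : Matrix o q ℝ) (W : Matrix k q ℝ) :
    (X * (Y * Z * Wᵀ)).trace = ∑ a, ∑ b, ∑ c, ∑ d, X a b * Y b c * Z c d * W a d := by
  simp only [Matrix.trace, Matrix.diag, Matrix.mul_apply, Matrix.transpose_apply, Finset.mul_sum,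
    Finset.sum_mul]
  refine Finset.sum_congr rfl fun a _ => Finset.sum_congr rfl fun b _ => ?_
  rw [Finset.sum_comm]
  refine Finset.sum_congr rfl fun c _ => Finset.sum_congr rfl fun d _ => ?_
  ring

theorem main : Pool.Agent.N657.QR.S_FIN := by
  classical
  intro α β γ _ _ A B M r s hM
  let m : Matrix A B ℝ := fun p q => M p q
  let S : Matrix (A ⊕ B) (A ⊕ B) ℝ := fromBlocks 0 m mᵀ 0
  have hSt : Sᵀ = S := by
    simp only [S, Matrix.fromBlocks_transpose, Matrix.transpose_transpose, Matrix.transpose_zero]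
  have hSS : S * S = fromBlocks (m * mᵀ) 0 0 (mᵀ * m) := by
    simp only [S, Matrix.fromBlocks_multiply, Matrix.zero_mul, Matrix.mul_zero, add_zero, zero_add]
  obtain ⟨R, hRt, hRR, hplus, hminus, hcom⟩ := exists_abs S hSt
  let lab : A ⊕ B → Bool × γ := Sum.elim (fun p => (true, r p)) (fun q => (false, s q))
  have hlab : ∀ i j, R i j ≠ 0 → lab i = lab j := by
    apply abs_block S R lab _ hcom
    rw [hSS]
    rintro (p | q) (p' | q') h
    · rw [Matrix.fromBlocks_apply₁₁, Matrix.mul_apply] at h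
      obtain ⟨t, -, ht⟩ := Finset.exists_ne_zero_of_sum_ne_zero h
      have h1 := (hM p t (left_ne_zero_of_mul ht)).2.2
      have h2 := (hM p' t (right_ne_zero_of_mul ht)).2.2
      simp [lab, h1, h2]
    · exact absurd (Matrix.fromBlocks_apply₁₂ _ _ _ _ _ _) h
    · exact absurd (Matrix.fromBlocks_apply₂₁ _ _ _ _ _ _) h
    · rw [Matrix.fromBlocks_apply₂₂, Matrix.mul_apply] at h
      obtain ⟨t, -, ht⟩ := Finset.exists_ne_zero_of_sum_ne_zero h
      have h1 := (hM t q (left_ne_zero_of_mul ht)).2.2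
      have h2 := (hM t q' (right_ne_zero_of_mul ht)).2.2
      simp [lab, ← h1, ← h2]
  let P0 : Matrix A A ℝ := R.toBlocks₁₁
  let Q0 : Matrix B B ℝ := R.toBlocks₂₂
  have hRb : R = fromBlocks P0 0 0 Q0 := by
    ext i j
    rcases i with p | q <;> rcases j with p' | q'
    · rfl
    · rw [Matrix.fromBlocks_apply₁₂]
      by_contra h
      have := hlab _ _ h
      simp [lab] at this
    · rw [Matrix.fromBlocks_apply₂₁]
      by_contra h
      have := hlab _ _ h
      simp [lab] at this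
    · rfl
  have hPt : P0ᵀ = P0 := by
    have h := hRt
    rw [hRb, Matrix.fromBlocks_transpose] at h
    exact (Matrix.fromBlocks_inj.1 h).1
  have hQt : Q0ᵀ = Q0 := by
    have h := hRt
    rw [hRb, Matrix.fromBlocks_transpose] at h
    exact (Matrix.fromBlocks_inj.1 h).2.2.2
  have hPP : P0 * P0 = m * mᵀ ∧ Q0 * Q0 = mᵀ * m := by
    have h := hRR
    rw [hRb, hSS, Matrix.fromBlocks_multiply] at h
    have h2 := Matrix.fromBlocks_inj.1 h
    simp only [Matrix.zero_mul, Matrix.mul_zero, add_zero, zero_add] at h2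
    exact ⟨h2.1, h2.2.2.2⟩
  let P : α → α → ℝ := fun p p' => if h : p ∈ A ∧ p' ∈ A then P0 ⟨p, h.1⟩ ⟨p', h.2⟩ else 0
  let Q : β → β → ℝ := fun p p' => if h : p ∈ B ∧ p' ∈ B then Q0 ⟨p, h.1⟩ ⟨p', h.2⟩ else 0
  have hPc : ∀ p p' : A, P p p' = P0 p p' := fun p p' => dif_pos ⟨p.2, p'.2⟩
  have hQc : ∀ p p' : B, Q p p' = Q0 p p' := fun p p' => dif_pos ⟨p.2, p'.2⟩
  have hP0 : ∀ p p', ¬ (p ∈ A ∧ p' ∈ A) → P p p' = 0 := fun p p' h => dif_neg h
  have hQ0 : ∀ p p', ¬ (p ∈ B ∧ p' ∈ B) → Q p p' = 0 := fun p p' h => dif_neg h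
  have hPs : ∀ p p' : A, P0 p p' = P0 p' p := fun p p' => congrFun (congrFun hPt p') p
  have hQs : ∀ p p' : B, Q0 p p' = Q0 p' p := fun p p' => congrFun (congrFun hQt p') p
  refine ⟨P, Q, ?_, ?_, ?_, ?_, ?_, ?_, ?_⟩
  · intro p p'
    by_cases h : p ∈ A ∧ p' ∈ A
    · exact ((hPc ⟨p, h.1⟩ ⟨p', h.2⟩).trans (hPs _ _)).trans (hPc ⟨p', h.2⟩ ⟨p, h.1⟩).symm
    · rw [hP0 _ _ h, hP0 _ _ (fun h' => h h'.symm)]
  · intro p p'
    by_cases h : p ∈ B ∧ p' ∈ B
    · exact ((hQc ⟨p, h.1⟩ ⟨p', h.2⟩).trans (hQs _ _)).trans (hQc ⟨p', h.2⟩ ⟨p, h.1⟩).symm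
    · rw [hQ0 _ _ h, hQ0 _ _ (fun h' => h h'.symm)]
  · intro p p' h
    by_cases h1 : p ∈ A ∧ p' ∈ A
    · have h2 : R (Sum.inl ⟨p, h1.1⟩) (Sum.inl ⟨p', h1.2⟩) ≠ 0 :=
        fun h0 => h ((hPc ⟨p, h1.1⟩ ⟨p', h1.2⟩).trans h0)
      have h3 := hlab _ _ h2
      simp only [lab, Sum.elim_inl, Prod.mk.injEq, true_and] at h3
      exact ⟨h1.1, h1.2, h3⟩
    · exact absurd (hP0 _ _ h1) h
  · intro p p' h
    by_cases h1 : p ∈ B ∧ p' ∈ B
    · have h2 : R (Sum.inr ⟨p, h1.1⟩) (Sum.inr ⟨p', h1.2⟩) ≠ 0 :=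
        fun h0 => h ((hQc ⟨p, h1.1⟩ ⟨p', h1.2⟩).trans h0)
      have h3 := hlab _ _ h2
      simp only [lab, Sum.elim_inr, Prod.mk.injEq, true_and] at h3
      exact ⟨h1.1, h1.2, h3⟩
    · exact absurd (hQ0 _ _ h1) h
  · intro p p'
    by_cases h : p ∈ A ∧ p' ∈ A
    · have h1 := congrFun (congrFun hPP.1 ⟨p, h.1⟩) ⟨p', h.2⟩
      rw [Matrix.mul_apply, Matrix.mul_apply] at h1
      rw [← Finset.sum_coe_sort A, ← Finset.sum_coe_sort B]
      refine Eq.trans (Finset.sum_congr rfl fun t _ => ?_) h1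
      rw [hPs t ⟨p', h.2⟩, ← hPc ⟨p, h.1⟩ t, ← hPc ⟨p', h.2⟩ t]
    · rw [Finset.sum_eq_zero, Finset.sum_eq_zero]
      · intro q _
        by_contra h2
        exact h ⟨(hM p q (left_ne_zero_of_mul h2)).1, (hM p' q (right_ne_zero_of_mul h2)).1⟩
      · intro t _
        by_contra h2
        apply h
        constructor
        · by_contra h3
          exact left_ne_zero_of_mul h2 (hP0 _ _ (fun h4 => h3 h4.1))
        · by_contra h3
          exact right_ne_zero_of_mul h2 (hP0 _ _ (fun h4 => h3 h4.1))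
  · intro p p'
    by_cases h : p ∈ B ∧ p' ∈ B
    · have h1 := congrFun (congrFun hPP.2 ⟨p, h.1⟩) ⟨p', h.2⟩
      rw [Matrix.mul_apply, Matrix.mul_apply] at h1
      rw [← Finset.sum_coe_sort A, ← Finset.sum_coe_sort B]
      refine Eq.trans (Finset.sum_congr rfl fun t _ => ?_) h1
      rw [hQs t ⟨p', h.2⟩, ← hQc ⟨p, h.1⟩ t, ← hQc ⟨p', h.2⟩ t]
    · rw [Finset.sum_eq_zero, Finset.sum_eq_zero]
      · intro q _
        by_contra h2
        exact h ⟨(hM q p (left_ne_zero_of_mul h2)).2.1, (hM q p' (right_ne_zero_of_mul h2)).2.1⟩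
      · intro t _
        by_contra h2
        apply h
        constructor
        · by_contra h3
          exact left_ne_zero_of_mul h2 (hQ0 _ _ (fun h4 => h3 h4.1))
        · by_contra h3
          exact right_ne_zero_of_mul h2 (hQ0 _ _ (fun h4 => h3 h4.1))
  · intro C D
    let C0 : Matrix A A ℝ := fun p q => C p q
    let D0 : Matrix B B ℝ := fun p q => D p q
    let X : Matrix (A ⊕ B) (A ⊕ B) ℝ := fromBlocks C0 0 0 D0
    have hpos : 0 ≤ ((R + S) * (X * (R - S) * Xᵀ)).trace := by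
      apply trace_mul_nonneg hplus
      have := hminus.mul_mul_conjTranspose_same X
      rwa [Matrix.conjTranspose_eq_transpose_of_trivial] at this
    have hexp : ((R + S) * (X * (R - S) * Xᵀ)).trace =
        (P0 * (C0 * P0 * C0ᵀ)).trace + (Q0 * (D0 * Q0 * D0ᵀ)).trace -
          ((m * (D0 * mᵀ * C0ᵀ)).trace + (mᵀ * (C0 * m * D0ᵀ)).trace) := by
      have e1 : R + S = fromBlocks P0 m mᵀ Q0 := by
        rw [hRb]
        simp only [S, Matrix.fromBlocks_add, add_zero, zero_add]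
      have e2 : R - S = fromBlocks P0 (-m) (-mᵀ) Q0 := by
        rw [hRb, sub_eq_add_neg]
        simp only [S, Matrix.fromBlocks_neg, Matrix.fromBlocks_add, neg_zero, add_zero, zero_add]
      have e3 : Xᵀ = fromBlocks C0ᵀ 0 0 D0ᵀ := by
        simp only [X, Matrix.fromBlocks_transpose, Matrix.transpose_zero]
      rw [e1, e2, e3]
      simp only [X, Matrix.fromBlocks_multiply, Matrix.zero_mul, Matrix.mul_zero, add_zero,
        zero_add, trace_blocks, Matrix.trace_add, Matrix.mul_neg, Matrix.neg_mul,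
        Matrix.trace_neg, neg_zero]
      ring
    have e4 : (m * (D0 * mᵀ * C0ᵀ)).trace = (mᵀ * (C0 * m * D0ᵀ)).trace := by
      rw [← Matrix.trace_transpose]
      simp only [Matrix.transpose_mul, Matrix.transpose_transpose]
      rw [Matrix.trace_mul_comm]
      simp only [Matrix.mul_assoc]
    have e5 : (mᵀ * (C0 * m * D0ᵀ)).trace =
        ∑ p ∈ A, ∑ q ∈ B, ∑ p' ∈ A, ∑ q' ∈ B, M p q * C p p' * M p' q' * D q q' := by
      rw [tr4, Finset.sum_comm]
      simp only [← Finset.sum_coe_sort A, ← Finset.sum_coe_sort B]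
      rfl
    have e6 : (P0 * (C0 * P0 * C0ᵀ)).trace =
        ∑ p ∈ A, ∑ q ∈ A, ∑ p' ∈ A, ∑ q' ∈ A, P p q * C p p' * P p' q' * C q q' := by
      rw [tr4, Finset.sum_comm]
      simp only [← Finset.sum_coe_sort A]
      refine Finset.sum_congr rfl fun p _ => Finset.sum_congr rfl fun q _ =>
        Finset.sum_congr rfl fun p' _ => Finset.sum_congr rfl fun q' _ => ?_
      rw [hPc, hPc, hPs q p]
    have e7 : (Q0 * (D0 * Q0 * D0ᵀ)).trace =
        ∑ p ∈ B, ∑ q ∈ B, ∑ p' ∈ B, ∑ q' ∈ B, Q p q * D p p' * Q p' q' * D q q' := by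
      rw [tr4, Finset.sum_comm]
      simp only [← Finset.sum_coe_sort B]
      refine Finset.sum_congr rfl fun p _ => Finset.sum_congr rfl fun q _ =>
        Finset.sum_congr rfl fun p' _ => Finset.sum_congr rfl fun q' _ => ?_
      rw [hQc, hQc, hQs q p]
    rw [hexp, e4, e5, e6, e7] at hpos
    linarith

end Pool.Agent.N2.QR
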