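import Pool.Agent.N646.RO.Stm
import Pool.Agent.Y827.RO.LamR

/-! Project RQ, part HIT: one configuration, from the library theorem `lamR0`. -/

set_option autoImplicit false

namespace Pool.Agent.N2.RQHIT

open Finset Filter Topology
open Pool.Agent.N646.RO Pool.Agent.Y827.RO

/-- fibres of `y ↦ y + s y` -/
theorem fib_le (F : Finset ℕ) (s : ℕ → ℕ) (s₀ : ℕ) (hs : ∀ y ∈ F, s y ≤ s₀) (t : Finset ℕ)
    (ht : ∀ y ∈ F, y + s y ∈ t) : F.card ≤ (s₀ + 1) * t.card := by
  refine Finset.card_le_mul_card_image_of_maps_to ht (s₀ + 1) ?_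
  intro b _
  have h1 : F.filter (fun y => y + s y = b) ⊆ Icc (b - s₀) b := by
    intro y hy
    obtain ⟨h2, h3⟩ := mem_filter.1 hy
    have h4 := hs y h2
    exact mem_Icc.2 (by omega)
  refine (card_le_card h1).trans ?_
  rw [Nat.card_Icc]
  omega

open Classical in
theorem main : S_HIT := by
  intro T M hT hTM
  obtain ⟨K, hK, δ, hδ, H0⟩ := lamR0 T M hT hTM
  obtain ⟨s₀, c, hc, H1⟩ := H0 1
  have hcardQ : (univ : Finset (Finset (Fin T) × (Fin T → Fin K))).card = 2 ^ T * K ^ T := by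
    rw [card_univ, Fintype.card_prod, Fintype.card_finset, Fintype.card_fin, Fintype.card_fun,
      Fintype.card_fin, Fintype.card_fin]
  set P : ℕ := 2 ^ T * K ^ T with hP
  have hP0 : 0 < P := by rw [hP]; positivity
  have hP0r : (0 : ℝ) < P := by exact_mod_cast hP0
  refine ⟨K, s₀, hK, δ, c / (2 * P * (s₀ + 1)), hδ, by positivity, ?_⟩
  have hlog : Tendsto (fun N : ℕ => Real.log N) atTop atTop :=
    Real.tendsto_log_atTop.comp tendsto_natCast_atTop_atTop
  have hlogN : ∀ᶠ N : ℕ in atTop, Real.log N ≤ N / 2 := by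
    have h1 := Real.isLittleO_log_id_atTop.def (c := 1 / 2) (by norm_num)
    filter_upwards [tendsto_natCast_atTop_atTop.eventually h1, eventually_ge_atTop 1] with N h2 h3
    have h4 : (1 : ℝ) ≤ N := by exact_mod_cast h3
    rw [Real.norm_of_nonneg (Real.log_nonneg h4), id, Real.norm_of_nonneg (by linarith)] at h2
    linarith
  filter_upwards [H1, hlogN, hlog.eventually_ge_atTop 2, eventually_ge_atTop 2] with N hN hN1 hN2 hN3
  intro M₀ hM₀ hM₀p H hinj hHN
  set L : ℕ := ⌊Real.log N⌋₊ with hL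
  have hL1 : (L : ℝ) ≤ Real.log N := Nat.floor_le (by linarith)
  have hL2 : Real.log N < L + 1 := Nat.lt_floor_add_one _
  have hLN : 2 * L ≤ N := by
    have : (2 * L : ℝ) ≤ N := by linarith
    exact_mod_cast this
  have hNr : (2 : ℝ) ≤ N := by exact_mod_cast hN3
  have hMHN : ∀ x, 2 * ((M₀ : ℝ) * H x) ≤ N := fun x => by exact_mod_cast hHN x
  have key : ∀ y : ℕ, y ∈ Icc 1 L → ∃ (s : ℕ) (S : Finset (Fin T)) (σ : Fin T → Fin K), s ≤ s₀ ∧
      M + 1 ≤ S.card ∧ c * (N / (Real.log N) ^ (T * K + 1)) ≤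
        ((Rs (fun g i => ((1 : ℤ), (M₀ : ℤ) * H (g, i) + y)) δ s S σ N).card : ℝ) := by
    intro y hy
    obtain ⟨hy1, hy2⟩ := mem_Icc.1 hy
    obtain ⟨s, S, σ, h1, _, _, h2, h3⟩ := hN (fun g i => ((1 : ℤ), (M₀ : ℤ) * H (g, i) + y)) (by
      rintro ⟨a, b⟩ ⟨a', b'⟩ h
      simp only [Prod.mk.injEq, true_and, add_left_inj] at h
      have h2 : (H (a, b) : ℤ) = H (a', b') := by
        have hM : (M₀ : ℤ) ≠ 0 := by exact_mod_cast (by omega : M₀ ≠ 0)
        exact mul_left_cancel₀ hM h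
      exact hinj (by exact_mod_cast h2)) (by
      intro g i
      have e1 := hMHN (g, i)
      have e2 : (y : ℝ) ≤ L := by exact_mod_cast hy2
      have e3 : (0 : ℝ) ≤ (M₀ : ℝ) * H (g, i) := by positivity
      refine ⟨one_ne_zero, by simp, ?_, isCoprime_one_left, ?_⟩
      · have h3 := hHN (g, i)
        have h4 : M₀ * H (g, i) + y ≤ N := by omega
        have h5 : ((M₀ : ℤ) * H (g, i) + y) = ((M₀ * H (g, i) + y : ℕ) : ℤ) := by push_cast; ring
        show |((M₀ : ℤ) * H (g, i) + y)| ≤ (N : ℤ)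
        rw [h5, abs_of_nonneg (by positivity)]
        exact_mod_cast h4
      · intro t ht1 ht2
        have e4 : (0 : ℝ) ≤ (y : ℝ) := by positivity
        push_cast
        linarith) (by
      intro p hp hpk
      refine ⟨1 - y, ?_⟩
      intro g i hdvd
      have h3 : (p : ℤ) ∣ M₀ := by exact_mod_cast hM₀p p hp hpk
      have h4 : (1 : ℤ) * (1 - y) + ((M₀ : ℤ) * H (g, i) + y) = 1 + (M₀ : ℤ) * H (g, i) := by ring
      simp only at hdvd
      rw [h4] at hdvd
      have h5 : (p : ℤ) ∣ 1 := (Int.dvd_add_left (h3.mul_right _)).1 hdvd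
      have h6 : p ∣ 1 := by exact_mod_cast h5
      exact hp.one_lt.ne' (Nat.dvd_one.1 h6))
    exact ⟨s, S, σ, h1, h2, h3⟩
  have : Nonempty (Fin K) := ⟨⟨0, by omega⟩⟩
  choose! s S σ hs hS hcard using key
  set R : ℕ → Finset ℕ := fun y =>
    Rs (fun g i => ((1 : ℤ), (M₀ : ℤ) * H (g, i) + y)) δ (s y) (S y) (σ y) N with hR
  set X : ℝ := c * (N / (Real.log N) ^ (T * K + 1)) with hX
  have hlogpos : 0 < Real.log N := by linarith
  have hX0 : 0 < X := by rw [hX]; positivity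
  have hL0 : 1 ≤ L := Nat.le_floor (by push_cast; linarith)
  have hLr : (1 : ℝ) ≤ L := by exact_mod_cast hL0
  -- pigeonhole
  have htot : ∑ q : Finset (Fin T) × (Fin T → Fin K), (L * X / P : ℝ) ≤
      ∑ q : Finset (Fin T) × (Fin T → Fin K),
        ∑ y ∈ (Icc 1 L).filter (fun y => (S y, σ y) = q), ((R y).card : ℝ) := by
    rw [Finset.sum_fiberwise_of_maps_to (fun _ _ => mem_univ _), sum_const, hcardQ, nsmul_eq_mul,
      mul_div_cancel₀ _ hP0r.ne']
    calc (L * X : ℝ) = ∑ y ∈ Icc 1 L, X := by simp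
      _ ≤ _ := sum_le_sum fun y hy => hcard y hy
  obtain ⟨q, _, hq⟩ := exists_le_of_sum_le univ_nonempty htot
  set fib : Finset ℕ := (Icc 1 L).filter (fun y => (S y, σ y) = q) with hfib
  have hne : fib.Nonempty := by
    rw [nonempty_iff_ne_empty]
    intro h0
    rw [h0, sum_empty] at hq
    have : 0 < (L * X / P : ℝ) := by positivity
    linarith
  obtain ⟨y₀, hy₀⟩ := hne
  obtain ⟨hy₀1, hy₀2⟩ := mem_filter.1 hy₀
  refine ⟨q.1, q.2, ?_, ?_⟩
  · rw [← hy₀2]
    exact hS y₀ hy₀1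
  set G : Finset ℕ := (Icc (N / 18) (2 * N)).filter (fun n : ℕ =>
    (∀ x, Rgh δ N (n + M₀ * H x)) ∧ ∀ g ∈ q.1, (n + M₀ * H (g, q.2 g)).Prime) with hG
  have hmem : ∀ y ∈ fib, ∀ n ∈ R y, n + y ∈ G ∧ Rgh δ N (((n + y : ℕ) : ℤ) - ((y + s y : ℕ) : ℤ)) := by
    intro y hy n hn
    obtain ⟨hy1, hy2⟩ := mem_filter.1 hy
    obtain ⟨hy3, hy4⟩ := mem_Icc.1 hy1
    have hq1 : S y = q.1 := by rw [← hy2]
    have hq2 : σ y = q.2 := by rw [← hy2]
    simp only [hR, Rs, mem_filter, mem_Icc] at hn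
    obtain ⟨⟨hn1, hn2⟩, hn3, hn4, hn5, hn6⟩ := hn
    refine ⟨?_, ?_⟩
    · rw [hG, mem_filter, mem_Icc]
      refine ⟨⟨?_, by omega⟩, ?_, ?_⟩
      · have h1 : ((N / 18 : ℕ) : ℝ) ≤ N / 18 := by
          have := @Nat.cast_div_le ℝ _ _ _ N 18
          simpa using this
        have h2 : ((N / 18 : ℕ) : ℝ) ≤ n := by linarith
        have h3 : N / 18 ≤ n := by exact_mod_cast h2
        omega
      · rintro ⟨g, i⟩ p hp hpl hdvd
        apply hn5 g i p hp hpl
        have e : (1 : ℤ) * n + ((M₀ : ℤ) * H (g, i) + y) = ((n + y : ℕ) : ℤ) + M₀ * H (g, i) := by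
          push_cast; ring
        rw [e]
        exact hdvd
      · intro g hg
        have h1 := hn6 g (by rw [hq1]; exact hg)
        rw [hq2] at h1
        have e : (1 : ℤ) * n + ((M₀ : ℤ) * H (g, q.2 g) + y) =
            ((n + y + M₀ * H (g, q.2 g) : ℕ) : ℤ) := by
          push_cast; ring
        rw [e, Int.toNat_natCast] at h1
        exact h1
    · intro p hp hpl hdvd
      apply hn4 p hp hpl
      have e : (n : ℤ) - s y = ((n + y : ℕ) : ℤ) - ((y + s y : ℕ) : ℤ) := by push_cast; ring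
      rw [e]
      exact hdvd
  set W : ℕ → ℕ := fun n =>
    ((range (L + s₀ + 1)).filter (fun j : ℕ => Rgh δ N (n - j))).card with hW
  have hcount : ∑ y ∈ fib, (R y).card ≤ (s₀ + 1) * ∑ n ∈ G, W n := by
    calc ∑ y ∈ fib, (R y).card
        ≤ ∑ y ∈ fib, (bipartiteAbove (fun y n' => ∃ n ∈ R y, n + y = n') G y).card := by
          refine sum_le_sum fun y hy => ?_
          refine card_le_card_of_injOn (fun n => n + y) ?_ ?_
          · intro n hn
            simp only [coe_bipartiteAbove, Set.mem_ofPred_eq]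
            exact ⟨(hmem y hy n hn).1, n, hn, rfl⟩
          · intro a _ b _ hab
            simpa using hab
      _ = ∑ n' ∈ G, (bipartiteBelow (fun y n' => ∃ n ∈ R y, n + y = n') fib n').card :=
          sum_card_bipartiteAbove_eq_sum_card_bipartiteBelow _
      _ ≤ ∑ n' ∈ G, (s₀ + 1) * W n' := by
          refine sum_le_sum fun n' _ => ?_
          refine fib_le _ s s₀ ?_ _ ?_
          · intro y hy
            exact hs y (mem_filter.1 (mem_filter.1 hy).1).1
          · intro y hy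
            obtain ⟨hy1, n, hn, rfl⟩ := mem_filter.1 hy
            have h1 := (mem_Icc.1 (mem_filter.1 hy1).1).2
            have h2 := hs y (mem_filter.1 hy1).1
            refine mem_filter.2 ⟨mem_range.2 (by omega), (hmem y hy1 n hn).2⟩
      _ = (s₀ + 1) * ∑ n ∈ G, W n := by rw [mul_sum]
  have hcount' : (∑ y ∈ fib, ((R y).card : ℝ)) ≤ (s₀ + 1) * ∑ n ∈ G, (W n : ℝ) := by
    exact_mod_cast hcount
  have hX2 : (Real.log N) * X = c * (N / (Real.log N) ^ (T * K)) := by
    rw [hX, pow_succ]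
    field_simp
  have hs0 : (0 : ℝ) < s₀ + 1 := by positivity
  have h1 : c / 2 * (N / (Real.log N) ^ (T * K)) ≤ L * X := by
    have h2 : Real.log N / 2 ≤ L := by linarith
    calc c / 2 * (N / (Real.log N) ^ (T * K)) = Real.log N / 2 * X := by
          rw [← mul_left_inj' (two_ne_zero' ℝ)]
          linear_combination -hX2
      _ ≤ L * X := by gcongr
  calc c / (2 * P * (s₀ + 1)) * (N / (Real.log N) ^ (T * K))
      = (c / 2 * (N / (Real.log N) ^ (T * K))) / P / (s₀ + 1) := by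
        field_simp
    _ ≤ (L * X) / P / (s₀ + 1) := by gcongr
    _ ≤ (∑ y ∈ fib, ((R y).card : ℝ)) / (s₀ + 1) := by gcongr
    _ ≤ ∑ n ∈ G, (W n : ℝ) := by
        rw [div_le_iff₀ hs0, mul_comm]
        exact hcount'

end Pool.Agent.N2.RQHIT
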